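import Mathlib

namespace Pool.Agent.Results.MP_773c46_pr.Explodes
open MeasureTheory Filter Finset Finsupp Real
open scoped Topology Classical

/-- the generator of the zero-range process on configurations with finitely many particles -/
noncomputable def L (g : ℕ → ℝ) (p : ℤ → ℝ) (f : (ℤ →₀ ℕ) → ℝ) (ξ : ℤ →₀ ℕ) : ℝ :=
  ∑ x ∈ ξ.support, ∑' y, g (ξ x) * p (y - x) * (f (ξ - single x 1 + single y 1) - f ξ)

/-- `ζ` has the one-time laws of the chain started at `ξ`: Kolmogorov's forward equation -/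
def IsZRP (g : ℕ → ℝ) (p : ℤ → ℝ) (ξ : ℤ →₀ ℕ) {Ω : Type} [MeasurableSpace Ω] (P : Measure Ω)
    (ζ : ℝ → Ω → ℤ →₀ ℕ) : Prop :=
  (∀ t, @Measurable _ _ _ ⊤ (ζ t)) ∧ (∀ᵐ ω ∂P, ζ 0 ω = ξ) ∧
    ∀ (f : (ℤ →₀ ℕ) → ℝ) (C : ℝ), (∀ ξ, |f ξ| ≤ C) → ∀ t, 0 ≤ t →
      Integrable (fun ω => L g p f (ζ t ω)) P ∧
      HasDerivWithinAt (fun t => ∫ ω, f (ζ t ω) ∂P) (∫ ω, L g p f (ζ t ω) ∂P) (Set.Ici 0) t

/-- `η` on `{|x| ≤ n}`, zero elsewhere -/
noncomputable def trunc (η : ℤ → ℕ) (n : ℕ) : ℤ →₀ ℕ := ∑ x ∈ Icc (-n : ℤ) n, single x (η x)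

variable {g : ℕ → ℝ} {p : ℤ → ℝ} {f : (ℤ →₀ ℕ) → ℝ} {ξ : ℤ →₀ ℕ} {C : ℝ}

lemma L_le (hp : Summable p) (hf : ∀ ξ, |f ξ| ≤ C) (a : ℤ → ℝ) (b : ℤ → ℤ → ℝ)
    (hb : ∀ x, HasSum (b x) (a x)) (h : ∀ x, ξ x ≠ 0 → ∀ y,
      g (ξ x) * p (y - x) * (f (ξ - single x 1 + single y 1) - f ξ) ≤ b x y) :
    L g p f ξ ≤ ∑ x ∈ ξ.support, a x := by
  refine sum_le_sum fun x hx => hasSum_le (h x (mem_support_iff.1 hx)) (Summable.hasSum ?_) (hb x)
  refine .of_norm_bounded (g := fun y => |g (ξ x)| * |p (y - x)| * (C + C))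
    ((((Equiv.subRight x).summable_iff.2 hp).abs.mul_left _).mul_right _) fun y => ?_
  rw [norm_mul, norm_mul]
  exact mul_le_mul_of_nonneg_left ((abs_sub _ _).trans (add_le_add (hf _) (hf _))) (by positivity)

lemma hs (p1 : HasSum p 1) (x : ℤ) (c : ℝ) : HasSum (fun y => p (y - x) * c) c := by
  simpa using ((Equiv.subRight x).hasSum_iff.2 p1).mul_right c

noncomputable def u (g : ℕ → ℝ) (j : ℕ) : ℝ := exp (-∑ i ∈ range j, (g (i + 1) + 1)⁻¹)

section
variable (g0 : g 0 = 0) (gm : Monotone g) (p0 : ∀ z, 0 ≤ p z) (p1 : HasSum p 1)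
include g0 gm

lemma gn (j : ℕ) : 0 ≤ g j := g0 ▸ gm j.zero_le

lemma u_anti : Antitone (u g) := antitone_nat_of_succ_le fun j => by
  have := gn g0 gm (j + 1)
  rw [u, u, sum_range_succ, exp_le_exp, neg_le_neg_iff]
  exact le_add_of_nonneg_right (by positivity)

lemma u_abs (j : ℕ) : |u g j| ≤ 1 :=
  (abs_of_pos (exp_pos _)).trans_le ((u_anti g0 gm j.zero_le).trans (by simp [u]))

include p0 p1

lemma L_u (X : ℤ) : L g p (fun ξ => u g (ξ X)) ξ ≤ 2 * u g (ξ X) := by
  have up : 0 < u g (ξ X) := exp_pos _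
  refine (L_le p1.summable (fun ξ => u_abs g0 gm _) (fun x => if x = X then 2 * u g (ξ X) else 0)
    (fun x y => p (y - x) * if x = X then 2 * u g (ξ X) else 0)
    (fun x => hs p1 x _) fun x hx y => ?_).trans
    (by rw [Finset.sum_ite_eq']; split_ifs; exacts [le_rfl, by positivity])
  rw [mul_comm (g _), mul_assoc]
  refine mul_le_mul_of_nonneg_left ?_ (p0 _)
  split_ifs with h
  · subst h
    obtain ⟨j, hj⟩ := Nat.exists_eq_succ_of_ne_zero hx
    have a := gn g0 gm (j + 1)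
    have b : u g ((ξ - single x 1 + single y 1 : ℤ →₀ ℕ) x) ≤ u g j := u_anti g0 gm (by simp [hj])
    have c : u g j = u g (j + 1) * exp (g (j + 1) + 1)⁻¹ := by
      rw [u, u, sum_range_succ, ← exp_add]; congr 1; ring
    have d := abs_exp_sub_one_le (x := (g (j + 1) + 1)⁻¹)
      (by rw [abs_of_pos (by positivity)]; exact inv_le_one_of_one_le₀ (by linarith))
    rw [abs_of_pos (a := _⁻¹) (by positivity)] at d
    have e : g (j + 1) * (exp (g (j + 1) + 1)⁻¹ - 1) ≤ 2 :=
      (mul_le_mul_of_nonneg_left ((le_abs_self _).trans d) a).trans (by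
        rw [← mul_assoc, ← div_eq_mul_inv, div_le_iff₀ (by positivity)]; linarith)
    rw [hj] at up ⊢
    nlinarith [mul_le_mul_of_nonneg_left b a, mul_le_mul_of_nonneg_left e up.le]
  · exact mul_nonpos_of_nonneg_of_nonpos (gn g0 gm _)
      (sub_nonpos.2 (u_anti g0 gm (by simp [h])))

lemma L_h {X : ℤ} (hX : X ≠ 0) {M : ℕ} (hM : 0 < M) (m : ℕ) :
    L g p (fun ξ => (M - ξ 0 : ℕ)) ξ ≤ -(g m * p (-X) / M) * (M - ξ 0 : ℕ) +
      (g M + g m * p (-X) / u g m * u g (ξ X)) := by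
  have gn := gn g0 gm
  set c : ℝ := if ξ 0 < M then -(g (ξ X) * p (-X)) else 0 with hc
  refine (L_le (C := M) p1.summable (fun ξ => by simp)
    (fun x => (if x = 0 then g M else 0) + if x = X then c else 0)
    (fun x y => (p (y - x) * if x = 0 then g M else 0) + if y = 0 then if x = X then c else 0 else 0)
    (fun x => HasSum.add (hs p1 x _)
      (hasSum_ite_eq _ _)) fun x hx y => ?_).trans ?_
  · have a := mul_nonneg (gn (ξ x)) (p0 (y - x))
    by_cases h : x = 0
    · subst h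
      simp only [if_true, if_neg hX.symm, ite_self, add_zero]
      rcases le_or_gt (ξ 0) M with h | h
      · refine (mul_le_of_le_one_right a ?_).trans
          (by rw [mul_comm]; exact mul_le_mul_of_nonneg_left (gm h) (p0 _))
        rw [sub_le_iff_le_add]; norm_cast; simp; omega
      · rw [show M - ξ 0 = 0 by omega, show M - (ξ - single 0 1 + single y 1 : ℤ →₀ ℕ) 0 = 0 by
          simp; omega]
        simpa using mul_nonneg (p0 _) (gn M)
    · simp only [if_neg h, mul_zero, zero_add]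
      have b : g (ξ x) * p (y - x) * (((M - (ξ - single x 1 + single y 1 : ℤ →₀ ℕ) 0 : ℕ) : ℝ) -
          (M - ξ 0 : ℕ)) ≤ 0 := mul_nonpos_of_nonneg_of_nonpos a (sub_nonpos.2 (by
        simp [h]; omega))
      split_ifs with h1 h2
      · subst h1 h2
        rw [hc]
        split_ifs with h3
        · rw [show M - ξ 0 = M - (ξ - single x 1 + single 0 1 : ℤ →₀ ℕ) 0 + 1 by simp [h]; omega]
          simp
        · exact b
      all_goals exact b
  · have a : ∑ x ∈ ξ.support, (if x = X then c else 0) = c := by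
      rw [Finset.sum_ite_eq']
      split_ifs with h
      exacts [rfl, by simp [hc, notMem_support_iff.1 h, g0]]
    have b : ∑ x ∈ ξ.support, (if x = 0 then g M else 0) ≤ g M := by
      rw [Finset.sum_ite_eq']; split_ifs; exacts [le_rfl, gn M]
    have B := mul_nonneg (gn m) (p0 (-X))
    have um : 0 < u g m := exp_pos _
    have uX : 0 < u g (ξ X) := exp_pos _
    have hM' : (0 : ℝ) < M := by exact_mod_cast hM
    have e : g m * p (-X) / M * (M - ξ 0 : ℕ) ≤ g m * p (-X) := by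
      rw [div_mul_eq_mul_div, div_le_iff₀ hM']
      exact mul_le_mul_of_nonneg_left (by simp) B
    have d : 0 ≤ g m * p (-X) / u g m * u g (ξ X) := by positivity
    rw [sum_add_distrib, a, hc]
    split_ifs with h
    · rcases le_total m (ξ X) with h1 | h1
      · linarith [mul_le_mul_of_nonneg_right (gm h1) (p0 (-X))]
      · have : g m * p (-X) ≤ g m * p (-X) / u g m * u g (ξ X) := by
          rw [div_mul_eq_mul_div, le_div_iff₀ um]
          exact mul_le_mul_of_nonneg_left (u_anti g0 gm h1) B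
        linarith [mul_nonneg (gn (ξ X)) (p0 (-X))]
    · rw [show M - ξ 0 = 0 by omega]; simp only [Nat.cast_zero, mul_zero]; linarith

variable {Ω : Type} [MeasurableSpace Ω] {P : Measure Ω} [IsProbabilityMeasure P]
  {ζ : ℝ → Ω → ℤ →₀ ℕ} (hζ : IsZRP g p ξ P ζ)
include hζ

omit g0 gm p0 p1 in
lemma integ (hf : ∀ ξ, |f ξ| ≤ C) (t : ℝ) : Integrable (fun ω => f (ζ t ω)) P :=
  .of_bound ((@measurable_from_top _ _ _ f).comp (hζ.1 t)).aestronglyMeasurable C
    (.of_forall fun _ => hf _)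

omit g0 gm p0 p1 in
lemma gron (hf : ∀ ξ, |f ξ| ≤ C) {K ε T : ℝ} (hK : K ≠ 0) (hT : 0 ≤ T)
    (h : ∀ t ∈ Set.Ico 0 T, ∫ ω, L g p f (ζ t ω) ∂P ≤ K * ∫ ω, f (ζ t ω) ∂P + ε) :
    ∫ ω, f (ζ T ω) ∂P ≤ f ξ * exp (K * T) + ε / K * (exp (K * T) - 1) := by
  have d := fun t ht => (hζ.2.2 f C hf t ht).2
  have := le_gronwallBound_of_liminf_deriv_right_le (δ := f ξ)
    (fun t ht => (d t ht.1).continuousWithinAt.mono Set.Icc_subset_Ici_self)
    (fun t ht r hr => by
      simpa [slope] using ((d t ht.1).mono (Set.Ici_subset_Ici.2 ht.1)).liminf_right_slope_le hr)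
    (by rw [integral_congr_ae (g := fun _ => f ξ) (hζ.2.1.mono fun ω h => by simp [h])]; simp)
    h T ⟨hT, le_rfl⟩
  simpa [gronwallBound_of_K_ne_0 hK] using this

lemma main {X : ℤ} (hX : X ≠ 0) {M : ℕ} (hM : 0 < M) {m : ℕ} (hB : 0 < g m * p (-X)) {T : ℝ}
    (hT : 0 ≤ T) : P.real {ω | ζ T ω 0 < M} ≤ M * (exp (-(g m * p (-X) / M) * T) +
      (g M / (g m * p (-X)) + u g (ξ X) / u g m * exp (2 * T))) := by
  have hM' : (0 : ℝ) < M := by exact_mod_cast hM
  have um : 0 < u g m := exp_pos _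
  have uX : 0 < u g (ξ X) := exp_pos _
  have gM := gn g0 gm M
  have hu := fun ξ : ℤ →₀ ℕ => u_abs g0 gm (ξ X)
  have hh : ∀ ξ : ℤ →₀ ℕ, |((M - ξ 0 : ℕ) : ℝ)| ≤ M := fun ξ => by simp
  have A : ∀ t ∈ Set.Ico 0 T, ∫ ω, u g (ζ t ω X) ∂P ≤ u g (ξ X) * exp (2 * T) := fun t ht => by
    refine (gron hζ hu (ε := 0) two_ne_zero ht.1 fun s hs => ?_).trans ?_
    · rw [add_zero, ← integral_const_mul]
      exact integral_mono (hζ.2.2 _ _ hu s hs.1).1 ((integ hζ hu s).const_mul _)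
        fun ω => L_u g0 gm p0 p1 X
    · rw [zero_div, zero_mul, add_zero]; gcongr; exact ht.2.le
  have B := gron hζ hh (K := -(g m * p (-X) / M)) (neg_ne_zero.2 (by positivity))
    (ε := g M + g m * p (-X) / u g m * (u g (ξ X) * exp (2 * T))) hT fun t ht => by
      refine (integral_mono (hζ.2.2 _ _ hh t ht.1).1 (((integ hζ hh t).const_mul _).add
        ((integrable_const _).add ((integ hζ hu t).const_mul _)))
        fun ω => L_h g0 gm p0 p1 hX hM m).trans ?_
      rw [integral_add' ((integ hζ hh t).const_mul _) ((integrable_const _).add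
        ((integ hζ hu t).const_mul _)), integral_add' (integrable_const _)
        ((integ hζ hu t).const_mul _), integral_const_mul, integral_const_mul, integral_const,
        probReal_univ, one_smul]
      gcongr
      exact A t ht
  have D := mul_meas_ge_le_integral_of_nonneg (.of_forall fun ω => Nat.cast_nonneg _)
    (integ hζ hh T) 1
  rw [one_mul, show {ω | (1 : ℝ) ≤ (M - ζ T ω 0 : ℕ)} = {ω | ζ T ω 0 < M} by
    ext; simp; omega] at D
  refine D.trans (B.trans ?_)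
  rw [mul_add]
  refine add_le_add (by gcongr; omega) ?_
  rw [div_neg, neg_mul, ← mul_neg, neg_sub]
  refine (mul_le_of_le_one_right (by positivity) (sub_le_self _ (exp_pos _).le)).trans_eq ?_
  have := ne_zero_and_ne_zero_of_mul hB.ne'
  field_simp [this.1, this.2]
end

theorem result (g : ℕ → ℝ) (g0 : g 0 = 0) (gm : Monotone g) (gt : Tendsto g atTop atTop)
    (gs : ¬ Summable fun n => (g n)⁻¹) :
    ∃ p : ℤ → ℝ, (∀ z, 0 ≤ p z) ∧ HasSum p 1 ∧ ∃ η : ℤ → ℕ,
      (∀ n : ℕ, ∑ x ∈ Icc (-n : ℤ) n, η x ≤ 2 * n + 1) ∧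
      ∀ (Ω : Type) [MeasurableSpace Ω] (P : Measure Ω) [IsProbabilityMeasure P]
        (ζ : ℕ → ℝ → Ω → ℤ →₀ ℕ), (∀ n, IsZRP g p (trunc η n) P (ζ n)) →
        ∀ t > 0, ∀ᵐ ω ∂P, ⨆ n, (ζ n t ω 0 : ℕ∞) = ⊤ := by
  have gn := gn g0 gm
  have hu : Tendsto (u g) atTop (𝓝 0) := by
    refine tendsto_exp_neg_atTop_nhds_zero.comp ((not_summable_iff_tendsto_nat_atTop_of_nonneg
      fun n => inv_nonneg.2 (by linarith [gn (n + 1)])).1 fun h => gs ?_)
    refine (summable_nat_add_iff 1).1 ((h.mul_left 2).of_norm_bounded_eventually_nat ?_)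
    filter_upwards [((tendsto_add_atTop_iff_nat 1).2 gt).eventually_ge_atTop 1] with n hn
    rw [norm_of_nonneg (by positivity), ← div_eq_mul_inv, inv_eq_one_div,
      div_le_div_iff₀ (by positivity) (by positivity)]
    linarith
  choose m hm using fun k : ℕ => (gt.eventually_ge_atTop ((k + 1) * 2 ^ (k + 1))).exists
  obtain ⟨j, hj, hj'⟩ := extraction_forall_of_eventually (P := fun k n => 0 < n ∧
    u g n / u g (m k) ≤ 1 / (k + 1)) fun k => (eventually_gt_atTop 0).and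
      ((hu.div_const _).eventually_le_const (by rw [zero_div]; positivity))
  have inj : Function.Injective fun k => -((j k : ℤ) ^ 2) := fun a b h =>
    hj.injective (by simpa using h)
  set p : ℤ → ℝ := Function.extend (fun k => -((j k : ℤ) ^ 2)) (fun k : ℕ => 1 / 2 / 2 ^ k) 0
  have p0 : ∀ z, 0 ≤ p z := fun z => by
    simp only [p, Function.extend_def]; split_ifs; exacts [by positivity, le_rfl]
  have p1 : HasSum p 1 := (hasSum_extend_zero inj).2 (hasSum_geometric_two' 1)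
  refine ⟨p, p0, p1, fun z => if IsSquare z then z.toNat.sqrt else 0, fun n => ?_,
    fun Ω _ P _ ζ hζ t ht => ?_⟩
  · rw [← sum_filter]
    refine (sum_le_card_nsmul _ _ n.sqrt fun z hz => Nat.sqrt_le_sqrt (by
      have := mem_Icc.1 (mem_filter.1 hz).1; omega)).trans ?_
    have : #{z ∈ Icc (-n : ℤ) n | IsSquare z} ≤ n.sqrt + 1 :=
      (card_le_card (t := (range (n.sqrt + 1)).image fun i : ℕ => (i * i : ℤ)) fun z hz => by
        obtain ⟨h, r, rfl⟩ := mem_filter.1 hz
        refine mem_image.2 ⟨r.natAbs, mem_range.2 (Nat.lt_succ_of_le (Nat.le_sqrt.2 ?_)), by simp⟩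
        zify; simpa using (mem_Icc.1 h).2).trans (card_image_le.trans (card_range _).le)
    nlinarith [Nat.sqrt_le n, Nat.sqrt_le_self n, smul_eq_mul _ n.sqrt ▸
      Nat.mul_le_mul_right n.sqrt this]
  have key : ∀ M : ℕ, ∀ᵐ ω ∂P, ∃ n, M < ζ n t ω 0 := fun M => by
    have B : ∀ k : ℕ, (k + 1 : ℝ) ≤ g (m k) * p (-(j k) ^ 2) := fun k => by
      rw [show p (-(j k) ^ 2) = 1 / 2 / 2 ^ k from inj.extend_apply _ _ k, div_div, mul_one_div, le_div_iff₀ (by positivity),
        ← pow_succ']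
      exact hm k
    have t1 : Tendsto (fun k => g (m k) * p (-(j k) ^ 2)) atTop atTop :=
      tendsto_atTop_mono B (tendsto_atTop_add_const_right _ _ tendsto_natCast_atTop_atTop)
    have t2 := ((tendsto_exp_atBot.comp ((tendsto_neg_atTop_atBot.comp
      (t1.atTop_div_const (r := ((M + 1 : ℕ) : ℝ)) (by positivity))).atBot_mul_const ht)).add
      ((t1.const_div_atTop (g (M + 1))).add (tendsto_one_div_add_atTop_nhds_zero_nat.mul_const
        (exp (2 * t))))).const_mul ((M + 1 : ℕ) : ℝ)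
    rw [ae_iff, ← measureReal_eq_zero_iff]
    refine le_antisymm ((ge_of_tendsto' t2 (fun k => ?_)).trans_eq (by simp)) measureReal_nonneg
    refine (measureReal_mono fun ω h => ?_).trans ((main g0 gm p0 p1 (hζ (j k ^ 2))
      (X := (j k) ^ 2) (by have := (hj' k).1; positivity) M.succ_pos
      (lt_of_lt_of_le (by positivity) (B k)) ht.le).trans ?_)
    · simpa [Nat.lt_succ_iff] using not_exists.1 h (j k ^ 2)
    · have : trunc (fun z => if IsSquare z then z.toNat.sqrt else 0) (j k ^ 2) (j k ^ 2) = j k := by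
        have e : ((j k : ℤ) ^ 2).toNat = j k ^ 2 := by rw [← Nat.cast_pow, Int.toNat_natCast]
        have := sq_nonneg (j k : ℤ)
        simp [trunc, single_apply, e, IsSquare.sq]
      rw [this]
      simp only [Function.comp]
      gcongr _ * (_ + (_ + ?_ * _))
      exact (hj' k).2
  filter_upwards [ae_all_iff.2 key] with ω h
  refine iSup_eq_top.2 fun b hb => ?_
  lift b to ℕ using hb.ne
  exact (h b).imp fun n hn => by exact_mod_cast hn

end Pool.Agent.Results.MP_773c46_pr.Explodes
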